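import Pool.Agent.MVD.StmtsLoc
import Pool.Agent.Helper27_MVD.CTX

/-!
# Squad MVD, row GHH (helper98): words equivalent to a word which is not free.
-/

set_option autoImplicit false

namespace Pool.Agent.MVD.H98

open Pool.Agent.MVD Pool.Agent.Helper14_MV Pool.Agent.Helper2_MV

variable {β : FIC}

theorem rtr {a b c : List ℕ} (h : RR β a b) (h' : RR β b c) : RR β a c := β.trans h h'

theorem pad {l l' : List ℕ} (h : RR β l l') (p r : List ℕ) :
    RR β (p ++ (l ++ r)) (p ++ (l' ++ r)) :=
  (RR.refl p).append (h.append (RR.refl r))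

/-- the letters different from `0` -/
def nz (l : List ℕ) : List ℕ := l.filter (fun a => decide (a ≠ 0))

theorem nz_append (l m : List ℕ) : nz (l ++ m) = nz l ++ nz m := List.filter_append _ _

theorem nz_zero (l : List ℕ) : nz (0 :: l) = nz l := by
  unfold nz
  rw [List.filter_cons_of_neg (by simp)]

theorem nz_cons {a : ℕ} (ha : a ≠ 0) (l : List ℕ) : nz (a :: l) = a :: nz l := by
  unfold nz
  rw [List.filter_cons_of_pos (by simpa using ha)]

theorem nz_of_not_mem {l : List ℕ} (h : 0 ∉ l) : nz l = l := by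
  unfold nz
  rw [List.filter_eq_self]
  intro a ha
  have : a ≠ 0 := fun h0 => h (h0 ▸ ha)
  simpa using this

theorem mem_nz {l : List ℕ} {a : ℕ} : a ∈ nz l ↔ a ∈ l ∧ a ≠ 0 := by
  unfold nz
  rw [List.mem_filter]
  simp

theorem count_nz {a : ℕ} (ha : a ≠ 0) (l : List ℕ) : (nz l).count a = l.count a := by
  unfold nz
  rw [List.count_filter (by simpa using ha)]

theorem count_nz_zero (l : List ℕ) : (nz l).count 0 = 0 := by
  rw [List.count_eq_zero]
  intro h
  exact (mem_nz.1 h).2 rfl

/-! ### words -/

theorem bw_append (R S : List ℕ) (B : ℕ → List ℕ) : Bw (R ++ S) B = Bw R B ++ Bw S B := by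
  unfold Bw
  rw [List.flatMap_append]

theorem bw_cons (r : ℕ) (S : List ℕ) (B : ℕ → List ℕ) :
    Bw (r :: S) B = B r ++ (3 * r + 2) :: Bw S B := by
  unfold Bw
  rw [List.flatMap_cons, List.append_assoc]
  rfl

theorem bw_congr {R : List ℕ} {B B' : ℕ → List ℕ} (h : ∀ r ∈ R, B r = B' r) : Bw R B = Bw R B' := by
  induction R with
  | nil => rfl
  | cons r S ih =>
    rw [bw_cons, bw_cons, h r List.mem_cons_self, ih fun s hs => h s (List.mem_cons_of_mem r hs)]

theorem bw_filter (p : ℕ → Bool) (hp : ∀ r, p (3 * r + 2) = true) (R : List ℕ) (B : ℕ → List ℕ) :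
    (Bw R B).filter p = Bw R (fun r => (B r).filter p) := by
  induction R with
  | nil => rfl
  | cons r S ih =>
    rw [bw_cons, bw_cons, List.filter_append, List.filter_cons_of_pos (hp r), ih]

theorem nz_bw (R : List ℕ) (B : ℕ → List ℕ) : nz (Bw R B) = Bw R (fun r => nz (B r)) :=
  bw_filter _ (fun r => by simp) R B

theorem mem_lab {P Q : List ℕ} {r : ℕ} : r ∈ lab P Q ↔ r = 0 ∨ ∃ i ∈ P ++ Q, r = i + 1 := by
  unfold lab
  rw [List.mem_append, List.mem_map, List.mem_cons, List.mem_map]
  constructor
  · rintro (⟨i, hi, rfl⟩ | rfl | ⟨i, hi, rfl⟩)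
    · exact Or.inr ⟨i, List.mem_append_left _ hi, rfl⟩
    · exact Or.inl rfl
    · exact Or.inr ⟨i, List.mem_append_right _ hi, rfl⟩
  · rintro (rfl | ⟨i, hi, rfl⟩)
    · exact Or.inr (Or.inl rfl)
    · rcases List.mem_append.1 hi with h | h
      · exact Or.inl ⟨i, h, rfl⟩
      · exact Or.inr (Or.inr ⟨i, h, rfl⟩)

theorem nodup_lab {P Q : List ℕ} (h : (P ++ Q).Nodup) : (lab P Q).Nodup := by
  have h1 : ((P ++ Q).map (fun e => e + 1)).Nodup := h.map (fun a b hab => by simpa using hab)
  have h2 : (0 :: (P ++ Q).map (fun e => e + 1)).Nodup := by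
    rw [List.nodup_cons]
    refine ⟨?_, h1⟩
    rw [List.mem_map]
    rintro ⟨i, _, hi⟩
    omega
  have h3 : (lab P Q).Perm (0 :: (P ++ Q).map (fun e => e + 1)) := by
    unfold lab
    rw [List.map_append]
    exact List.perm_middle
  exact h3.nodup_iff.2 h2

/-- the place blocks and the main block -/
def BM (L : List ℕ) (r : ℕ) : List ℕ := if r = 0 then L else [3 * (r - 1) + 1]

theorem wm_bm (P Q L : List ℕ) : Wm P Q L = Bw (lab P Q) (BM L) := rfl

theorem bw_wm (P Q : List ℕ) (B : ℕ → List ℕ) (h : ∀ r ∈ lab P Q, r ≠ 0 → B r = [3 * (r - 1) + 1]) :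
    Bw (lab P Q) B = Wm P Q (B 0) := by
  rw [wm_bm]
  refine bw_congr fun r hr => ?_
  unfold BM
  by_cases h0 : r = 0
  · subst h0
    rw [if_pos rfl]
  · rw [if_neg h0, h r hr h0]

theorem wm_split (P Q : List ℕ) : ∃ X Y : List ℕ, (∀ L, Wm P Q L = X ++ (L ++ Y)) ∧
    (∀ i ∈ P, 3 * i + 1 ∈ X) ∧ (∀ i ∈ Q, 3 * i + 1 ∈ Y) ∧ 0 ∉ X ∧ 0 ∉ Y := by
  have key : ∀ (S : List ℕ) (L : List ℕ), Bw (S.map (fun e => e + 1)) (BM L) =
      S.flatMap (fun e => [3 * e + 1, 3 * (e + 1) + 2]) := by
    intro S L
    induction S with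
    | nil => rfl
    | cons a S ih =>
      rw [List.map_cons, bw_cons, ih, List.flatMap_cons]
      unfold BM
      rw [if_neg (by omega)]
      rfl
  have hm : ∀ (S : List ℕ) (i : ℕ), i ∈ S →
      3 * i + 1 ∈ S.flatMap (fun e => [3 * e + 1, 3 * (e + 1) + 2]) := by
    intro S i hi
    rw [List.mem_flatMap]
    exact ⟨i, hi, List.mem_cons_self⟩
  have hn : ∀ S : List ℕ, 0 ∉ S.flatMap (fun e => [3 * e + 1, 3 * (e + 1) + 2]) := by
    intro S h
    rw [List.mem_flatMap] at h
    obtain ⟨e, _, he⟩ := h
    simp only [List.mem_cons, List.not_mem_nil, or_false] at he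
    omega
  refine ⟨P.flatMap (fun e => [3 * e + 1, 3 * (e + 1) + 2]),
    2 :: Q.flatMap (fun e => [3 * e + 1, 3 * (e + 1) + 2]), fun L => ?_, hm P, fun i hi => ?_,
    hn P, ?_⟩
  · rw [wm_bm]
    unfold lab
    rw [bw_append, key, bw_cons, key]
    rfl
  · exact List.mem_cons_of_mem _ (hm Q i hi)
  · intro h
    rcases List.mem_cons.1 h with h | h
    · omega
    · exact hn Q h

theorem nz_wm (P Q L : List ℕ) : nz (Wm P Q L) = Wm P Q (nz L) := by
  obtain ⟨X, Y, h, _, _, hX, hY⟩ := wm_split P Q
  rw [h, h, nz_append, nz_append, nz_of_not_mem hX, nz_of_not_mem hY]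

/-! ### S2 moves -/

theorem mv0 (hs : S2 β) (ctx : CtxStmt) : ∀ (C p q : List ℕ), 0 ∈ p → 0 ∈ q →
    (∀ a ∈ C, 2 ≤ (p ++ (C ++ q)).count a) →
      RR β (p ++ 0 :: (C ++ q)) (p ++ (C ++ 0 :: q)) := by
  intro C
  induction C with
  | nil =>
    intro p q _ _ _
    exact RR.refl _
  | cons a C ih =>
    intro p q hp hq hm
    have h1 : a ∈ p ∨ a ∈ C ++ q := by
      have h := hm a List.mem_cons_self
      by_contra hc
      rw [not_or] at hc
      have c1 : p.count a = 0 := List.count_eq_zero.2 hc.1
      have c2 : (C ++ q).count a = 0 := List.count_eq_zero.2 hc.2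
      rw [List.cons_append, List.count_append, List.count_cons_self, c1, c2] at h
      omega
    have h2 : RR β (p ++ 0 :: a :: (C ++ q)) (p ++ a :: 0 :: (C ++ q)) := by
      rcases h1 with h | h
      · exact ((ctx β).2.1 hs p (C ++ q) a 0 h (List.mem_append_right _ hq)).symm
      · exact (ctx β).2.1 hs p (C ++ q) 0 a hp h
    have h3 := ih (p ++ [a]) q (List.mem_append_left _ hp) hq (fun b hb => by
      have h := hm b (List.mem_cons_of_mem a hb)
      rw [List.append_assoc]
      exact h)
    rw [List.append_assoc, List.append_assoc] at h3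
    exact rtr h2 h3

theorem gat (hs : S2 β) (ctx : CtxStmt) : ∀ (A p q : List ℕ), 0 ∈ p → 0 ∈ q →
    (∀ a ∈ A, a ≠ 0 → 2 ≤ (p ++ (A ++ q)).count a) →
      RR β (p ++ (A ++ q)) (p ++ (nz A ++ (List.replicate (A.count 0) 0 ++ q))) := by
  intro A
  induction A with
  | nil =>
    intro p q _ _ _
    exact RR.refl _
  | cons a A ih =>
    intro p q hp hq hm
    have h3 := ih (p ++ [a]) q (List.mem_append_left _ hp) hq (fun b hb hb0 => by
      have h := hm b (List.mem_cons_of_mem a hb) hb0
      rw [List.append_assoc]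
      exact h)
    rw [List.append_assoc, List.append_assoc] at h3
    by_cases ha : a = 0
    · subst ha
      rw [nz_zero, List.count_cons_self]
      refine rtr h3 ?_
      have h4 := mv0 hs ctx (nz A) p (List.replicate (A.count 0) 0 ++ q) hp
        (List.mem_append_right _ hq) (fun b hb => by
          have hb' := mem_nz.1 hb
          have h := hm b (List.mem_cons_of_mem 0 hb'.1) hb'.2
          rw [List.cons_append, List.count_append, List.count_cons_of_ne (Ne.symm hb'.2),
            List.count_append] at h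
          rw [List.count_append, List.count_append, List.count_append, count_nz hb'.2]
          omega)
      rw [List.replicate_succ]
      exact h4
    · rw [nz_cons ha, List.count_cons_of_ne ha]
      exact h3

/-! ### powers -/

theorem three_le (h2 : Iso2 β) {N : ℕ} (h : RR β [0, 0, 0] (List.replicate N 0)) : 3 ≤ N := by
  by_contra hN
  have h3 : N = 0 ∨ N = 1 ∨ N = 2 := by omega
  rcases h3 with rfl | rfl | rfl
  · have h4 := h2 _ ((RR.refl [0, 0]).append h).symm
    simp at h4
  · have h4 := h2 _ ((RR.refl [0]).append h).symm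
    simp at h4
  · have h4 := h2 _ h.symm
    simp at h4

/-- the letters `0` -/
theorem filt_zero (l : List ℕ) :
    l.filter (fun a => decide (a = 0)) = List.replicate (l.count 0) 0 := by
  rw [List.count_eq_length_filter]
  have h : ∀ a ∈ l.filter (fun a => decide (a = 0)), a = 0 := by
    intro a ha
    simpa using (List.mem_filter.1 ha).2
  have h1 := List.eq_replicate_of_mem h
  rw [h1]
  congr 2

/-! ### canonical words -/

theorem can_count {P Q γ : List ℕ} (hc : Can P Q γ) (K : List ℕ)
    (hK : ∀ a, a ≠ 0 → K.count a = γ.count a) :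
    ∀ a ∈ γ, 2 ≤ (Wm P Q K).count a := by
  intro a ha
  obtain ⟨X, Y, hw, hX, hY, _, _⟩ := wm_split P Q
  have h2 := hc.sf a ha
  rw [hw, List.count_append, List.count_append]
  rcases (by omega : a % 3 = 0 ∨ a % 3 = 1) with h0 | h1
  · have h3 := hc.lc a ha h0
    rw [hK a (by omega), h3.1]
    omega
  · obtain ⟨i, hi, rfl⟩ := hc.ps a ha h1
    rw [hK _ (by omega), hc.pl i hi]
    rcases List.mem_append.1 hi with h | h
    · have h5 : 1 ≤ X.count (3 * i + 1) := List.count_pos_iff.2 (hX i h)
      omega
    · have h5 : 1 ≤ Y.count (3 * i + 1) := List.count_pos_iff.2 (hY i h)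
      omega

theorem can_zero {P Q γ : List ℕ} (hc : Can P Q γ) : 0 ∉ γ := by
  intro h
  have := (hc.lc 0 h rfl).2
  omega

theorem key (hGfe : GfeStmt) {n : ℕ} {P Q γ : List ℕ} (h : NF β n P Q γ) {g1 g2 : List ℕ}
    (hp : (g1 ++ g2).Perm γ)
    (hr : RR β (Wm P Q (0 :: (γ ++ [0, 0]))) (Wm P Q (g1 ++ 0 :: 0 :: 0 :: g2))) : False := by
  have hz : 0 ∉ γ := can_zero h.can
  have hz2 : 0 ∉ g1 ++ g2 := fun h' => hz (hp.mem_iff.1 h')
  have h1 : RR β (nz (Wm P Q (0 :: (γ ++ [0, 0])))) (nz (Wm P Q (g1 ++ 0 :: 0 :: 0 :: g2))) :=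
    hr.filter _
  rw [nz_wm, nz_wm, nz_zero, nz_append, nz_append, nz_zero, nz_zero, nz_zero, nz_zero, nz_zero,
    ← nz_append g1 g2, nz_of_not_mem hz, nz_of_not_mem hz2] at h1
  have h2 : nz ([] : List ℕ) = [] := rfl
  rw [h2, List.append_nil] at h1
  exact h.nf (hGfe β P Q γ g1 g2 h.hc h.cb h.can hp h1 hr)

/-- the first and the last `0` -/
theorem two_zeros {K : List ℕ} (h : 2 ≤ K.count 0) : ∃ h1 A h3 : List ℕ,
    K = h1 ++ 0 :: (A ++ 0 :: h3) ∧ 0 ∉ h1 ∧ 0 ∉ h3 := by
  have h0 : (0 : ℕ) ∈ K := List.count_pos_iff.1 (by omega)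
  obtain ⟨h1, K1, rfl, hh1⟩ := List.eq_append_cons_of_mem h0
  have h2 : (0 : ℕ) ∈ K1.reverse := by
    rw [List.mem_reverse]
    refine List.count_pos_iff.1 ?_
    rw [List.count_append, List.count_cons_self, List.count_eq_zero.2 hh1] at h
    omega
  obtain ⟨A, C, hAC, hA⟩ := List.eq_append_cons_of_mem h2
  refine ⟨h1, C.reverse, A.reverse, ?_, hh1, fun h' => hA (List.mem_reverse.1 h')⟩
  have h3 : K1 = C.reverse ++ 0 :: A.reverse := by
    have h4 := congrArg List.reverse hAC
    rw [List.reverse_reverse, List.reverse_append, List.reverse_cons, List.append_assoc] at h4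
    exact h4
  rw [h3]

theorem rep_add (a b : ℕ) (q : List ℕ) :
    List.replicate a 0 ++ (List.replicate b 0 ++ q) = List.replicate (a + b) (0 : ℕ) ++ q := by
  rw [← List.append_assoc, ← List.replicate_add]

/-- all `0` are in the main block -/
theorem main_block (hGfe : GfeStmt) (hCpw : CpwStmt) {n : ℕ} {P Q γ : List ℕ} (h : NF β n P Q γ)
    {K : List ℕ} (hK : ∀ a, a ≠ 0 → K.count a = γ.count a)
    (hr : RR β (Wm P Q (0 :: (γ ++ [0, 0]))) (Wm P Q K)) :
    ∃ γ', γ'.Perm (0 :: γ) ∧ K = 0 :: (γ' ++ [0]) := by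
  have ctx : CtxStmt := H27.ctx
  obtain ⟨X, Y, hw, hX, hY, hX0, hY0⟩ := wm_split P Q
  have hz : 0 ∉ γ := can_zero h.can
  have hγ0 : γ.count 0 = 0 := List.count_eq_zero.2 hz
  have hmult := can_count h.can K hK
  have hmem : ∀ a ∈ K, a ≠ 0 → a ∈ γ := by
    intro a ha h0
    refine List.count_pos_iff.1 ?_
    rw [← hK a h0]
    exact List.count_pos_iff.2 ha
  have hN : RR β [0, 0, 0] (List.replicate (K.count 0) 0) := by
    have h1 := hr.filter (fun a => decide (a = 0))
    rw [hw, hw, filt_zero, filt_zero, List.count_append, List.count_append, List.count_append,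
      List.count_append, List.count_cons_self, List.count_append, List.count_eq_zero.2 hX0,
      List.count_eq_zero.2 hY0, hγ0] at h1
    rw [Nat.zero_add, Nat.add_zero, Nat.zero_add, Nat.add_zero, Nat.zero_add] at h1
    exact h1
  have hN3 := three_le h.hc.i2 hN
  obtain ⟨h1, A, h3, hKe, hh1, hh3⟩ := two_zeros (K := K) (by omega)
  have cA : A.count 0 + 2 = K.count 0 := by
    rw [hKe, List.count_append, List.count_cons_self, List.count_append, List.count_cons_self,
      List.count_eq_zero.2 hh1, List.count_eq_zero.2 hh3]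
    omega
  have hperm : (h1 ++ (nz A ++ h3)).Perm γ := by
    rw [List.perm_iff_count]
    intro a
    rw [List.count_append, List.count_append]
    by_cases ha : a = 0
    · subst ha
      rw [count_nz_zero, List.count_eq_zero.2 hh1, List.count_eq_zero.2 hh3, hγ0]
    · rw [count_nz ha, ← hK a ha, hKe, List.count_append, List.count_cons_of_ne (Ne.symm ha),
        List.count_append, List.count_cons_of_ne (Ne.symm ha)]
  -- the general multiplicity
  have hA2 : ∀ a ∈ A, a ≠ 0 → 2 ≤ ((X ++ (h1 ++ [0])) ++ (A ++ (0 :: (h3 ++ Y)))).count a := by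
    intro a ha h0
    have h5 : a ∈ K := by
      rw [hKe]
      exact List.mem_append_right _ (List.mem_cons_of_mem _ (List.mem_append_left _ ha))
    have h6 := hmult a (hmem a h5 h0)
    rw [hw, hKe] at h6
    simpa [List.count_append, List.count_cons, add_assoc] using h6
  have hwK : Wm P Q K = (X ++ (h1 ++ [0])) ++ (A ++ (0 :: (h3 ++ Y))) := by
    rw [hw, hKe]
    simp
  by_cases hN4 : 4 ≤ K.count 0
  · -- at least four `0`
    exfalso
    obtain ⟨k, hk⟩ := hCpw.1 β h.hc.md h.hc.i2
    have hper := hCpw.2 β (K.count 0) hN3 hN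
    have e1 := gat h.hc.s2 ctx A (X ++ (h1 ++ [0])) (0 :: (h3 ++ Y))
      (by simp) List.mem_cons_self hA2
    rw [← hwK] at e1
    -- the powers
    obtain ⟨d, hd⟩ : ∃ d, K.count 0 = d + 4 := ⟨K.count 0 - 4, by omega⟩
    have hA' : A.count 0 = d + 2 := by omega
    rw [hA'] at e1
    rw [hd] at hper
    have e2 := hper (d + 3) k (by omega)
    have e3 : RR β (X ++ (h1 ++ [0]) ++ (nz A ++ (List.replicate (d + 2) 0 ++ 0 :: (h3 ++ Y))))
        (X ++ (h1 ++ [0]) ++ (nz A ++ (List.replicate (d + 3 + k * (d + 4 - 3)) 0 ++ (h3 ++ Y)))) := by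
      have e4 := pad e2 (X ++ (h1 ++ [0]) ++ nz A) (h3 ++ Y)
      have e5 : List.replicate (d + 3) (0 : ℕ) ++ (h3 ++ Y) =
          List.replicate (d + 2) 0 ++ 0 :: (h3 ++ Y) := by
        rw [show d + 3 = (d + 2) + 1 from rfl, List.replicate_succ', List.append_assoc]
        rfl
      rw [← e5]
      rw [List.append_assoc (X ++ (h1 ++ [0])) (nz A), List.append_assoc (X ++ (h1 ++ [0])) (nz A)]
        at e4
      exact e4
    have e6 := hk (d + 3 + k * (d + 4 - 3)) (by
      have : d + 4 - 3 = d + 1 := by omega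
      rw [this]
      nlinarith) (X ++ (h1 ++ [0])) (nz A) (h3 ++ Y) 0
    have e7 : RR β (X ++ (h1 ++ [0]) ++ (List.replicate (d + 3 + k * (d + 4 - 3)) 0 ++
        (nz A ++ (h3 ++ Y)))) (X ++ (h1 ++ (List.replicate 3 0 ++ (nz A ++ (h3 ++ Y))))) := by
      have e8 := hper 3 (k + 1) (by omega)
      have e9 : 3 + (k + 1) * (d + 4 - 3) = 1 + (d + 3 + k * (d + 4 - 3)) := by
        have : d + 4 - 3 = d + 1 := by omega
        rw [this]
        ring
      rw [e9] at e8
      have e10 := pad e8.symm (X ++ h1) (nz A ++ (h3 ++ Y))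
      rw [← rep_add] at e10
      simpa using e10
    have e11 := rtr hr (rtr e1 (rtr e3 (rtr e6.symm e7)))
    refine key hGfe h (g1 := h1) (g2 := nz A ++ h3) hperm ?_
    rw [hw (h1 ++ 0 :: 0 :: 0 :: (nz A ++ h3))]
    simpa [List.replicate] using e11
  · have hN3' : K.count 0 = 3 := by omega
    have hA1 : A.count 0 = 1 := by omega
    have h0A : (0 : ℕ) ∈ A := List.count_pos_iff.1 (by omega)
    obtain ⟨A1, A2, hAe, hA1'⟩ := List.eq_append_cons_of_mem h0A
    have hA2' : 0 ∉ A2 := by
      rw [← List.count_eq_zero]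
      rw [hAe, List.count_append, List.count_cons_self] at hA1
      omega
    by_cases hcase : h1 = [] ∧ h3 = []
    · refine ⟨A, ?_, ?_⟩
      · rw [hcase.1, hcase.2, List.nil_append, List.append_nil] at hperm
        rw [List.perm_iff_count]
        intro a
        have h5 := List.perm_iff_count.1 hperm a
        by_cases ha : a = 0
        · subst ha
          rw [List.count_cons_self, hA1, hγ0]
        · rw [List.count_cons_of_ne (Ne.symm ha), ← h5, count_nz ha]
      · rw [hKe, hcase.1, hcase.2]
        rfl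
    · exfalso
      have hlen : (A1 ++ A2).length ≤ n := by
        have h5 := hperm.length_eq
        have h6 := h.len
        have h7 : nz A = A1 ++ A2 := by
          rw [hAe, nz_append, nz_zero, nz_of_not_mem hA1', nz_of_not_mem hA2']
        rw [h7, List.length_append, List.length_append] at h5
        have h8 : 1 ≤ h1.length + h3.length := by
          by_contra hc
          apply hcase
          constructor
          · exact List.length_eq_zero_iff.1 (by omega)
          · exact List.length_eq_zero_iff.1 (by omega)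
        omega
      have h7 : nz A = A1 ++ A2 := by
        rw [hAe, nz_append, nz_zero, nz_of_not_mem hA1', nz_of_not_mem hA2']
      have e1 := mv0 h.hc.s2 ctx A2 (X ++ (h1 ++ 0 :: A1)) (0 :: (h3 ++ Y)) (by simp)
        List.mem_cons_self (by
          intro a ha
          have ha0 : a ≠ 0 := fun h0 => hA2' (h0 ▸ ha)
          have h5 := hA2 a (by rw [hAe]; exact List.mem_append_right _ (List.mem_cons_of_mem _ ha))
            ha0
          rw [hAe] at h5
          simp only [List.count_append, List.count_cons, List.count_nil] at h5 ⊢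
          have h6 : ((0 : ℕ) == a) = false := by simpa using Ne.symm ha0
          rw [h6] at h5 ⊢
          simp only [Bool.false_eq_true, if_false] at h5 ⊢
          omega)
      have e2 := h.gf (X ++ h1) (A1 ++ A2) (h3 ++ Y) 0 hlen (by
          rw [List.mem_append, not_or]
          exact ⟨hA1', hA2'⟩) (by
          intro a ha
          have ha0 : a ≠ 0 := by
            rintro rfl
            rcases List.mem_append.1 ha with h5 | h5
            · exact hA1' h5
            · exact hA2' h5
          have h5 := hA2 a (by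
            rw [hAe]
            rcases List.mem_append.1 ha with h5 | h5
            · exact List.mem_append_left _ h5
            · exact List.mem_append_right _ (List.mem_cons_of_mem _ h5)) ha0
          rw [hAe] at h5
          simp only [List.count_append, List.count_cons, List.count_nil] at h5 ⊢
          have h6 : ((0 : ℕ) == a) = false := by simpa using Ne.symm ha0
          rw [h6] at h5 ⊢
          simp only [Bool.false_eq_true, if_false] at h5 ⊢
          omega)
      refine key hGfe h (g1 := h1) (g2 := nz A ++ h3) hperm ?_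
      rw [hw (h1 ++ 0 :: 0 :: 0 :: (nz A ++ h3)), h7]
      refine rtr hr ?_
      rw [hwK, hAe]
      have e3 : RR β (X ++ (h1 ++ [0]) ++ (A1 ++ 0 :: A2 ++ 0 :: (h3 ++ Y)))
          (X ++ h1 ++ 0 :: (A1 ++ A2 ++ 0 :: 0 :: (h3 ++ Y))) := by
        simpa using e1
      refine rtr e3 ?_
      simpa using e2

theorem ghh (sha : ShaStmt) (ctg : CtgStmt) (irl : IrlStmt) (gfe : GfeStmt) (cpw : CpwStmt) :
    GhhStmt := by
  intro β n P Q γ h w' hr
  have hz : 0 ∉ γ := can_zero h.can
  have hγ0 : γ.count 0 = 0 := List.count_eq_zero.2 hz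
  have hnd : (lab P Q).Nodup := nodup_lab h.can.nd
  have hsf : ∀ r ∈ lab P Q, SFr (BM (0 :: (γ ++ [0, 0])) r) := by
    intro r _ c hc
    unfold BM at hc
    by_cases h0 : r = 0
    · rw [if_pos h0, List.mem_cons, List.mem_append] at hc
      rcases hc with rfl | hc | hc
      · omega
      · exact h.can.sf c hc
      · simp only [List.mem_cons, List.not_mem_nil, or_false, or_self] at hc
        omega
    · rw [if_neg h0, List.mem_singleton] at hc
      omega
  obtain ⟨B, e, hB, he, rfl, s1, s2, s3⟩ := sha β h.hc.i2 h.hc.i3 h.hc.na (lab P Q)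
    (BM (0 :: (γ ++ [0, 0]))) w' hnd hsf hr
  have hBM0 : ∀ c, c ≠ 0 → (BM (0 :: (γ ++ [0, 0])) 0).count c = γ.count c := by
    intro c hc
    unfold BM
    rw [if_pos rfl, List.count_cons_of_ne (Ne.symm hc), List.count_append,
      List.count_cons_of_ne (Ne.symm hc), List.count_cons_of_ne (Ne.symm hc), List.count_nil,
      Nat.add_zero]
  have hBMi : ∀ i, BM (0 :: (γ ++ [0, 0])) (i + 1) = [3 * i + 1] := by
    intro i
    unfold BM
    rw [if_neg (by omega)]
    rfl
  -- all letters except `0` keep their blocks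
  have hcnt : ∀ c, c ≠ 0 → (∀ r ∈ lab P Q, (B r).count c = (BM (0 :: (γ ++ [0, 0])) r).count c) ∧
      e.count c = 0 := by
    intro c hc
    by_cases h2 : c % 3 = 2
    · refine ⟨fun r hr' => ?_, ?_⟩
      · rw [List.count_eq_zero.2 fun h' => hB r c h' h2,
          List.count_eq_zero.2 fun h' => hsf r hr' c h' h2]
      · exact List.count_eq_zero.2 fun h' => he c h' h2
    by_cases hno : ∀ r ∈ lab P Q, c ∉ BM (0 :: (γ ++ [0, 0])) r
    · have h5 := s1 c hno
      refine ⟨fun r hr' => ?_, List.count_eq_zero.2 h5.2⟩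
      rw [List.count_eq_zero.2 (h5.1 r hr'), List.count_eq_zero.2 (hno r hr')]
    -- it occurs
    by_cases h1 : c % 3 = 1
    · obtain ⟨i, hi⟩ : ∃ i, c = 3 * i + 1 := ⟨c / 3, by omega⟩
      subst hi
      have hiPQ : i ∈ P ++ Q := by
        by_contra hiN
        apply hno
        intro r hr' hcr
        rcases mem_lab.1 hr' with rfl | ⟨j, hj, rfl⟩
        · have h5 : 1 ≤ (BM (0 :: (γ ++ [0, 0])) 0).count (3 * i + 1) := List.count_pos_iff.2 hcr
          rw [hBM0 _ hc] at h5
          obtain ⟨j, hj, hij⟩ := h.can.ps _ (List.count_pos_iff.1 h5) h1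
          have : i = j := by omega
          exact hiN (this ▸ hj)
        · rw [hBMi, List.mem_singleton] at hcr
          have : i = j := by omega
          exact hiN (this ▸ hj)
      have hval : ∀ q ∈ lab P Q, (BM (0 :: (γ ++ [0, 0])) q).count (3 * i + 1) =
          if q = 0 ∨ q = i + 1 then 1 else 0 := by
        intro q hq
        rcases mem_lab.1 hq with rfl | ⟨j, hj, rfl⟩
        · rw [if_pos (Or.inl rfl), hBM0 _ hc, h.can.pl i hiPQ]
        · rw [hBMi]
          by_cases hij : j = i
          · subst hij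
            rw [if_pos (Or.inr rfl)]
            simp
          · rw [if_neg (by omega)]
            rw [List.count_eq_zero]
            rw [List.mem_singleton]
            omega
      have h6 := s2 (3 * i + 1) 0 (i + 1) h2 (mem_lab.2 (Or.inl rfl))
        (mem_lab.2 (Or.inr ⟨i, hiPQ, rfl⟩)) (by omega) hval
      exact ⟨fun r hr' => (h6.1 r hr').trans (hval r hr').symm, h6.2⟩
    · have h0 : c % 3 = 0 := by omega
      have hcγ : c ∈ γ := by
        by_contra hcn
        apply hno
        intro r hr' hcr
        rcases mem_lab.1 hr' with rfl | ⟨j, hj, rfl⟩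
        · have h5 : 1 ≤ (BM (0 :: (γ ++ [0, 0])) 0).count c := List.count_pos_iff.2 hcr
          rw [hBM0 _ hc] at h5
          exact hcn (List.count_pos_iff.1 h5)
        · rw [hBMi, List.mem_singleton] at hcr
          omega
      have hval : ∀ q ∈ lab P Q, (BM (0 :: (γ ++ [0, 0])) q).count c =
          if q = 0 then 2 else 0 := by
        intro q hq
        rcases mem_lab.1 hq with rfl | ⟨j, hj, rfl⟩
        · rw [if_pos rfl, hBM0 _ hc, (h.can.lc c hcγ h0).1]
        · rw [hBMi, if_neg (by omega), List.count_eq_zero, List.mem_singleton]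
          omega
      have h6 := s3 c 0 h2 (mem_lab.2 (Or.inl rfl)) hval
      exact ⟨fun r hr' => (h6.1 r hr').trans (hval r hr').symm, h6.2⟩
  have hK : ∀ a, a ≠ 0 → (B 0).count a = γ.count a := by
    intro a ha
    rw [(hcnt a ha).1 0 (mem_lab.2 (Or.inl rfl)), hBM0 a ha]
  have hnzB : ∀ i ∈ P ++ Q, nz (B (i + 1)) = [3 * i + 1] := by
    intro i hi
    have h5 : (nz (B (i + 1))).Perm [3 * i + 1] := by
      rw [List.perm_iff_count]
      intro a
      by_cases ha : a = 0
      · subst ha
        rw [count_nz_zero]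
        symm
        rw [List.count_eq_zero, List.mem_singleton]
        omega
      · rw [count_nz ha, (hcnt a ha).1 (i + 1) (mem_lab.2 (Or.inr ⟨i, hi, rfl⟩)), hBMi]
    exact List.perm_singleton.1 h5
  have he0 : ∀ a ∈ e, a = 0 := by
    intro a ha
    by_contra h0
    exact (List.count_eq_zero.1 (hcnt a h0).2) ha
  by_cases hall : (∀ i ∈ P ++ Q, 0 ∉ B (i + 1)) ∧ 0 ∉ e
  · -- all `0` in the main block
    have hee : e = [] := by
      rw [List.eq_nil_iff_forall_not_mem]
      intro a ha
      exact hall.2 (he0 a ha ▸ ha)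
    have hw : Bw (lab P Q) B ++ e = Wm P Q (B 0) := by
      rw [hee, List.append_nil]
      refine bw_wm P Q B fun r hr' h0 => ?_
      rcases mem_lab.1 hr' with rfl | ⟨j, hj, rfl⟩
      · exact absurd rfl h0
      · have h5 := hnzB j hj
        rw [nz_of_not_mem (hall.1 j hj)] at h5
        exact h5
    rw [hw] at hr ⊢
    obtain ⟨γ', h1, h2⟩ := main_block gfe cpw h hK hr
    exact ⟨γ', h1, by rw [h2]⟩
  · exfalso
    -- not all `0` in the main block
    have hlt : (B 0).count 0 < (Bw (lab P Q) B ++ e).count 0 := by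
      have h5 : (Bw (lab P Q) B).count 0 = (Bw (P.map (fun e => e + 1)) B).count 0 +
          ((B 0).count 0 + (Bw (Q.map (fun e => e + 1)) B).count 0) := by
        unfold lab
        rw [bw_append, bw_cons, List.count_append, List.count_append, List.count_cons_of_ne
          (by omega)]
      have hmem : ∀ (S : List ℕ) (i : ℕ), i ∈ S → 0 ∈ B (i + 1) →
          1 ≤ (Bw (S.map (fun e => e + 1)) B).count 0 := by
        intro S i hi h0
        refine List.count_pos_iff.2 ?_
        unfold Bw
        rw [List.mem_flatMap]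
        exact ⟨i + 1, List.mem_map.2 ⟨i, hi, rfl⟩, List.mem_append_left _ h0⟩
      rw [List.count_append, h5]
      by_cases h6 : 0 ∈ e
      · have h7 : 1 ≤ e.count 0 := List.count_pos_iff.2 h6
        omega
      · have h7 : ∃ i ∈ P ++ Q, 0 ∈ B (i + 1) := by
          by_contra hc
          exact hall ⟨fun i hi h8 => hc ⟨i, hi, h8⟩, h6⟩
        obtain ⟨i, hi, h0⟩ := h7
        rcases List.mem_append.1 hi with h8 | h8
        · have := hmem P i h8 h0
          omega
        · have := hmem Q i h8 h0
          omega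
    have hnzw : nz (Bw (lab P Q) B ++ e) = Wm P Q (nz (B 0)) := by
      have h5 : nz e = [] := by
        rw [List.eq_nil_iff_forall_not_mem]
        intro a ha
        have h6 := mem_nz.1 ha
        exact h6.2 (he0 a h6.1)
      rw [nz_append, h5, List.append_nil, nz_bw]
      refine bw_wm P Q (fun r => nz (B r)) fun r hr' h0 => ?_
      rcases mem_lab.1 hr' with rfl | ⟨j, hj, rfl⟩
      · exact absurd rfl h0
      · exact hnzB j hj
    have hpermnz : (nz (B 0)).Perm γ := by
      rw [List.perm_iff_count]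
      intro a
      by_cases ha : a = 0
      · subst ha
        rw [count_nz_zero, hγ0]
      · rw [count_nz ha, hK a ha]
    obtain ⟨U, V, hUV, hc1⟩ := ctg β h.hc.s2 (lab P Q) B e 0 hnd (by omega) (by
        intro r hr' a ha h0
        have h5 : (Bw (lab P Q) B ++ e).count a = (Wm P Q (nz (B 0))).count a := by
          rw [← hnzw, count_nz h0]
        rw [h5]
        refine can_count h.can (nz (B 0)) (fun b hb => by rw [count_nz hb, hK b hb]) a ?_
        rcases mem_lab.1 hr' with rfl | ⟨j, hj, rfl⟩
        · refine List.count_pos_iff.1 ?_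
          rw [← hK a h0]
          exact List.count_pos_iff.2 ha
        · have h6 : a ∈ nz (B (j + 1)) := mem_nz.2 ⟨ha, h0⟩
          rw [hnzB j hj, List.mem_singleton] at h6
          rw [h6]
          refine List.count_pos_iff.1 ?_
          rw [h.can.pl j hj]
          exact Nat.one_pos) (by
        intro r hr'
        rcases mem_lab.1 hr' with rfl | ⟨j, hj, rfl⟩
        · exact Or.inr hlt
        · left
          have h6 : (B (j + 1)).filter (fun a => decide (a ≠ 0)) = [3 * j + 1] := hnzB j hj
          rw [h6]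
          exact le_refl 1)
    -- projection to `0` and the separators
    have hpr := hr.filter (fun a => decide (a = 0 ∨ a % 3 = 2))
    rw [wm_bm, List.filter_append, bw_filter _ (fun r => by simp) _ _,
      bw_filter _ (fun r => by simp) _ _] at hpr
    have hfe : e.filter (fun a => decide (a = 0 ∨ a % 3 = 2)) = e := by
      rw [List.filter_eq_self]
      intro a ha
      simpa using Or.inl (he0 a ha)
    have hfB : ∀ l : List ℕ, SFr l → l.filter (fun a => decide (a = 0 ∨ a % 3 = 2)) =
        List.replicate (l.count 0) 0 := by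
      intro l hl
      rw [← filt_zero]
      refine List.filter_congr fun a ha => ?_
      have h5 := hl a ha
      simp [h5]
    rw [hfe] at hpr
    have hb1 : Bw (lab P Q) (fun r => (BM (0 :: (γ ++ [0, 0])) r).filter
        (fun a => decide (a = 0 ∨ a % 3 = 2))) =
        Bw (lab P Q) (fun r => if r = 0 then [0, 0, 0] else []) := by
      refine bw_congr fun r hr' => ?_
      rw [hfB _ (hsf r hr')]
      rcases mem_lab.1 hr' with rfl | ⟨j, hj, rfl⟩
      · rw [if_pos rfl]
        have h5 : (BM (0 :: (γ ++ [0, 0])) 0).count 0 = 3 := by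
          unfold BM
          rw [if_pos rfl, List.count_cons_self, List.count_append, hγ0]
          rfl
        rw [h5]
        rfl
      · rw [if_neg (by omega), hBMi]
        have h5 : ([3 * j + 1] : List ℕ).count 0 = 0 := by
          rw [List.count_eq_zero, List.mem_singleton]
          omega
        rw [h5]
        rfl
    have hb2 : Bw (lab P Q) (fun r => (B r).filter (fun a => decide (a = 0 ∨ a % 3 = 2))) =
        Bw (lab P Q) (fun r => List.replicate ((B r).count 0) 0) :=
      bw_congr fun r _ => hfB _ (hB r)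
    rw [hb1, hb2] at hpr
    have hsrep : ∀ k, SFr (List.replicate k 0) := by
      intro k c hc
      rw [List.eq_of_mem_replicate hc]
      omega
    have hir := irl β (lab P Q) (fun r => if r = 0 then [0, 0, 0] else [])
      (fun r => List.replicate ((B r).count 0) 0) U V [] e [] [] hnd (by
        intro r _
        by_cases h0 : r = 0
        · subst h0
          exact hsrep 3
        · intro c hc
          simp only [if_neg h0, List.not_mem_nil] at hc) (fun r _ => hsrep _)
      (fun c hc => absurd hc List.not_mem_nil) he (by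
        rw [List.append_nil]
        exact hpr)
    simp only [List.append_nil, List.nil_append] at hir
    have hfin : Bw (lab P Q) (fun r => U r ++ ((if r = 0 then [0, 0, 0] else []) ++ V r)) =
        Wm P Q (U 0 ++ 0 :: 0 :: 0 :: V 0) := by
      have h5 := bw_wm P Q (fun r => U r ++ ((if r = 0 then [0, 0, 0] else []) ++ V r)) (by
        intro r hr' h0
        rw [if_neg h0, List.nil_append, hUV r hr']
        rcases mem_lab.1 hr' with rfl | ⟨j, hj, rfl⟩
        · exact absurd rfl h0
        · exact hnzB j hj)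
      rw [h5]
      rfl
    rw [hfin] at hir
    refine key gfe h (g1 := U 0) (g2 := V 0) ?_ (rtr hr (rtr hc1 hir.symm))
    have h6 : U 0 ++ V 0 = nz (B 0) := hUV 0 (mem_lab.2 (Or.inl rfl))
    rw [h6]
    exact hpermnz

end Pool.Agent.MVD.H98
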